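import Mathlib

/-! Amenability (von Neumann) of a discrete group and invariant means on sets acted on by a
subgroup. -/

set_option autoImplicit false

namespace Pool.Agent.Q192.QM

/-- The discrete group `G` is amenable: there is a finitely additive probability measure defined
on all subsets of `G` which is invariant under left translations. -/
def IsAmenable (G : Type*) [Group G] : Prop :=
  ∃ m : Set G → ℝ, (∀ A, 0 ≤ m A) ∧ m Set.univ = 1 ∧
    (∀ A B, Disjoint A B → m (A ∪ B) = m A + m B) ∧
    ∀ (g : G) (A : Set G), m ((fun x => g * x) '' A) = m A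

/-- A mean on an amenable group induces a mean on a set, invariant under all permutations which
are covered by left multiplications of a subgroup. -/
theorem IsAmenable.mean {G : Type*} [Group G] (h : IsAmenable G) (L : Subgroup G) {X : Type*}
    (e : L → X) (P : Set (Equiv.Perm X))
    (hP : ∀ σ ∈ P, ∃ l : L, ∀ l' : L, e (l * l') = σ (e l')) :
    ∃ μ : Set X → ℝ, (∀ A, 0 ≤ μ A) ∧ (∀ A, Set.range e ⊆ A → μ A = 1) ∧
      (∀ A B, Disjoint A B → μ (A ∪ B) = μ A + μ B) ∧ ∀ σ ∈ P, ∀ A, μ (σ '' A) = μ A := by
  classical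
  obtain ⟨m, h0, h1, hadd, hinv⟩ := h
  let out : G → G := fun g => (Quotient.mk (QuotientGroup.rightRel L) g).out
  have hout : ∀ g, g * (out g)⁻¹ ∈ L := by
    intro g
    have : (QuotientGroup.rightRel L) (out g) g := Quotient.exact (Quotient.out_eq _)
    rwa [QuotientGroup.rightRel_apply] at this
  have hout2 : ∀ (l : L) g, out (l * g) = out g := by
    intro l g
    have : Quotient.mk (QuotientGroup.rightRel L) (l * g) =
        Quotient.mk (QuotientGroup.rightRel L) g := by
      apply Quotient.sound
      change (QuotientGroup.rightRel L) (l * g) g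
      rw [QuotientGroup.rightRel_apply]
      simp
    simp only [out, this]
  let r : G → L := fun g => ⟨g * (out g)⁻¹, hout g⟩
  have hr : ∀ (l : L) g, r (l * g) = l * r g := by
    intro l g
    apply Subtype.ext
    simp only [r, hout2, Subgroup.coe_mul, mul_assoc]
  refine ⟨fun B => m {g | e (r g) ∈ B}, fun A => h0 _, fun A hA => ?_, fun A B hAB => ?_, ?_⟩
  · have : {g | e (r g) ∈ A} = Set.univ := Set.eq_univ_of_forall fun g => hA ⟨_, rfl⟩
    show m {g | e (r g) ∈ A} = 1
    rw [this, h1]
  · rw [← hadd]
    · rfl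
    · rw [Set.disjoint_left] at hAB ⊢
      intro g hg hg'
      exact hAB hg hg'
  · intro σ hσ A
    obtain ⟨l, hl⟩ := hP σ hσ
    show m {g | e (r g) ∈ σ '' A} = m {g | e (r g) ∈ A}
    rw [← hinv (l : G) {g | e (r g) ∈ A}]
    congr 1
    ext g
    constructor
    · rintro ⟨x, hx, hxg⟩
      refine ⟨(l : G)⁻¹ * g, ?_, by simp⟩
      have h2 : e (r g) = σ (e (r ((l : G)⁻¹ * g))) := by
        rw [← hl, ← hr]; simp
      have h3 : σ x = σ (e (r ((l : G)⁻¹ * g))) := by rw [← h2]; exact hxg
      rw [σ.injective h3] at hx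
      exact hx
    · rintro ⟨x, hx, rfl⟩
      refine ⟨e (r x), hx, ?_⟩
      show σ (e (r x)) = e (r (l * x))
      rw [hr, hl]

end Pool.Agent.Q192.QM
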