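import Mathlib

/-! Elementary facts on the ternary Cantor set. -/

set_option autoImplicit false

namespace Pool.Agent.Q192.QM

theorem K_bounds {x : ℝ} (hx : x ∈ cantorSet) : 0 ≤ x ∧ x ≤ 1 := cantorSet_subset_unitInterval hx

theorem K_left {x : ℝ} (hx : x ∈ cantorSet) : x / 3 ∈ cantorSet := by
  rw [cantorSet_eq_union_halves]; exact Or.inl ⟨x, hx, rfl⟩

theorem K_right {x : ℝ} (hx : x ∈ cantorSet) : (2 + x) / 3 ∈ cantorSet := by
  rw [cantorSet_eq_union_halves]; exact Or.inr ⟨x, hx, rfl⟩

theorem K_cases {x : ℝ} (hx : x ∈ cantorSet) :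
    (3 * x ∈ cantorSet ∧ x ≤ 1 / 3) ∨ (3 * x - 2 ∈ cantorSet ∧ 2 / 3 ≤ x) := by
  rw [cantorSet_eq_union_halves] at hx
  rcases hx with ⟨y, hy, rfl⟩ | ⟨y, hy, rfl⟩
  · left
    refine ⟨?_, ?_⟩
    · show 3 * (y / 3) ∈ cantorSet
      rwa [mul_div_cancel₀ _ (by norm_num)]
    · show y / 3 ≤ 1 / 3
      have := (K_bounds hy).2; linarith
  · right
    refine ⟨?_, ?_⟩
    · show 3 * ((2 + y) / 3) - 2 ∈ cantorSet
      have : 3 * ((2 + y) / 3) - 2 = y := by ring
      rwa [this]
    · show 2 / 3 ≤ (2 + y) / 3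
      have := (K_bounds hy).1; linarith

theorem K_three {x : ℝ} (hx : x ∈ cantorSet) (h : x < 2 / 3) :
    3 * x ∈ cantorSet ∧ x ≤ 1 / 3 := by
  rcases K_cases hx with h' | h'
  · exact h'
  · linarith [h'.2]

theorem K_three' {x : ℝ} (hx : x ∈ cantorSet) (h : 1 / 3 < x) :
    3 * x - 2 ∈ cantorSet ∧ 2 / 3 ≤ x := by
  rcases K_cases hx with h' | h'
  · linarith [h'.2]
  · exact h'

theorem half_not_mem : (1 / 2 : ℝ) ∉ cantorSet := by
  intro h
  have := (K_three h (by norm_num)).2
  norm_num at this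

theorem K_symm {x : ℝ} (hx : x ∈ cantorSet) : 1 - x ∈ cantorSet := by
  have key : ∀ n : ℕ, ∀ x : ℝ, x ∈ preCantorSet n → 1 - x ∈ preCantorSet n := by
    intro n
    induction n with
    | zero => intro x hx; simp at hx ⊢; exact ⟨hx.2, hx.1⟩
    | succ n ih =>
      intro x hx
      rw [preCantorSet_succ] at hx ⊢
      rcases hx with ⟨y, hy, rfl⟩ | ⟨y, hy, rfl⟩
      · exact Or.inr ⟨1 - y, ih y hy, by ring⟩
      · exact Or.inl ⟨1 - y, ih y hy, by ring⟩
  simp only [cantorSet, Set.mem_iInter] at hx ⊢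
  exact fun n => key n x (hx n)

theorem K_Icc (n : ℕ) : ∀ x y : ℝ, x ≤ y → Set.Icc x y ⊆ cantorSet → 3 ^ n * (y - x) ≤ 1 := by
  induction n with
  | zero =>
    intro x y hxy h
    have h1 := K_bounds (h ⟨le_rfl, hxy⟩)
    have h2 := K_bounds (h ⟨hxy, le_rfl⟩)
    linarith
  | succ n ih =>
    intro x y hxy h
    have hx := h ⟨le_rfl, hxy⟩
    have hy := h ⟨hxy, le_rfl⟩
    rcases K_cases hx with h1 | h1
    · rcases K_cases hy with h2 | h2
      · have := ih (3 * x) (3 * y) (by linarith) (by
          intro z hz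
          have h3 : z / 3 ∈ cantorSet := h ⟨by linarith [hz.1], by linarith [hz.2]⟩
          have h4 := (K_three h3 (by linarith [hz.2, h2.2])).1
          rwa [mul_div_cancel₀ _ (by norm_num)] at h4)
        rw [pow_succ]; linarith
      · exact absurd (h (show (1 / 2 : ℝ) ∈ Set.Icc x y from ⟨by linarith [h1.2], by linarith [h2.2]⟩))
          half_not_mem
    · have := ih (3 * x - 2) (3 * y - 2) (by linarith) (by
          intro z hz
          have h3 : (2 + z) / 3 ∈ cantorSet := h ⟨by linarith [hz.1], by linarith [hz.2]⟩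
          have h4 := (K_three' h3 (by linarith [hz.1, h1.2])).1
          have e : 3 * ((2 + z) / 3) - 2 = z := by ring
          rwa [e] at h4)
      rw [pow_succ]; linarith

/-- Between two different points there is a point outside the Cantor set. -/
theorem K_gap {x y : ℝ} (hxy : x < y) : ∃ g, x < g ∧ g < y ∧ g ∉ cantorSet := by
  by_contra hcon
  push Not at hcon
  let a := x + (y - x) / 3
  let b := y - (y - x) / 3
  have hab : a < b := by simp only [a, b]; linarith
  have hsub : Set.Icc a b ⊆ cantorSet := by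
    intro z hz
    refine hcon z ?_ ?_
    · have := hz.1; simp only [a] at this; linarith
    · have := hz.2; simp only [b] at this; linarith
  have hpos : 0 < b - a := by linarith
  obtain ⟨n, hn⟩ := pow_unbounded_of_one_lt (1 / (b - a)) (by norm_num : (1 : ℝ) < 3)
  rw [div_lt_iff₀ hpos] at hn
  exact absurd (K_Icc n a b hab.le hsub) (by linarith)

/-! The piecewise linear map `τ`. -/

/-- The piecewise linear homeomorphism of the line: `3x` on `[0, 2/9]`, `x + 4/9` on
`[2/9, 1/3]`, `(x + 2)/3` on `[1/3, 1]`, the identity elsewhere. -/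
noncomputable def tauFun (x : ℝ) : ℝ :=
  if x ≤ 0 then x else if x ≤ 2 / 9 then 3 * x else if x ≤ 1 / 3 then x + 4 / 9
  else if x ≤ 1 then (x + 2) / 3 else x

/-- The inverse of `τ`. -/
noncomputable def tauInv (x : ℝ) : ℝ :=
  if x ≤ 0 then x else if x ≤ 2 / 3 then x / 3 else if x ≤ 7 / 9 then x - 4 / 9
  else if x ≤ 1 then 3 * x - 2 else x

theorem tauInv_tauFun (x : ℝ) : tauInv (tauFun x) = x := by
  unfold tauInv tauFun; split_ifs <;> linarith

theorem tauFun_tauInv (x : ℝ) : tauFun (tauInv x) = x := by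
  unfold tauInv tauFun; split_ifs <;> linarith

theorem tauFun_strictMono : StrictMono tauFun := by
  intro x y h
  unfold tauFun; split_ifs <;> linarith

/-- `τ` as an order isomorphism of the line. -/
noncomputable def tau : ℝ ≃o ℝ where
  toFun := tauFun
  invFun := tauInv
  left_inv := tauInv_tauFun
  right_inv := tauFun_tauInv
  map_rel_iff' := tauFun_strictMono.le_iff_le

theorem tau_apply (x : ℝ) : tau x = tauFun x := rfl
theorem tau_symm_apply (x : ℝ) : tau.symm x = tauInv x := rfl

theorem tau_mem {x : ℝ} (hx : x ∈ cantorSet) : tau x ∈ cantorSet := by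
  rw [tau_apply]
  unfold tauFun
  split_ifs with h1 h2 h3 h4
  · exact hx
  · exact (K_three hx (by linarith)).1
  · have h5 := (K_three hx (by linarith)).1
    have h6 := (K_three' h5 (by linarith)).1
    have h7 := K_right (K_left h6)
    convert h7 using 1; ring
  · have := K_right hx
    convert this using 1; ring
  · exact hx

theorem tau_symm_mem {x : ℝ} (hx : x ∈ cantorSet) : tau.symm x ∈ cantorSet := by
  rw [tau_symm_apply]
  unfold tauInv
  split_ifs with h1 h2 h3 h4
  · exact hx
  · exact K_left hx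
  · have h5 := (K_three' hx (by linarith)).1
    have h6 := (K_three h5 (by linarith)).1
    have h7 := K_left (K_right h6)
    convert h7 using 1; ring
  · exact (K_three' hx (by linarith)).1
  · exact hx

theorem tau_mem_iff {x : ℝ} : tau x ∈ cantorSet ↔ x ∈ cantorSet :=
  ⟨fun h => by simpa using tau_symm_mem h, tau_mem⟩

theorem tau_of_nonpos {x : ℝ} (h : x ≤ 0) : tau x = x := by
  rw [tau_apply, tauFun, if_pos h]

theorem tau_of_one_le {x : ℝ} (h : 1 ≤ x) : tau x = x := by
  rw [tau_apply, tauFun]; split_ifs <;> linarith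

theorem le_tau (x : ℝ) : x ≤ tau x := by
  rw [tau_apply, tauFun]; split_ifs <;> linarith

end Pool.Agent.Q192.QM
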