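import Pool.Agent.Q192.QM.Iso

/-! The four homeomorphisms of the plane. -/

set_option autoImplicit false

open Complex Topology
open Pool.Agent.H659R3.BigMCG

namespace Pool.Agent.Q192.QM

/-- The affine map `x ↦ 9 x - 2`, taking `[2/9, 1/3]` to `[0, 1]`. -/
noncomputable def aff : ℝ ≃o ℝ where
  toFun x := 9 * x - 2
  invFun x := (x + 2) / 9
  left_inv x := by ring
  right_inv x := by ring
  map_rel_iff' := by
    intro a b
    show 9 * a - 2 ≤ 9 * b - 2 ↔ a ≤ b
    constructor <;> intro h <;> linarith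

/-- The copy of `τ` on `[2/9, 1/3]`. -/
noncomputable def sigma : ℝ ≃o ℝ := (aff.trans tau).trans aff.symm

theorem sigma_apply (x : ℝ) : sigma x = (tau (9 * x - 2) + 2) / 9 := rfl
theorem sigma_symm_apply (x : ℝ) : sigma.symm x = (tau.symm (9 * x - 2) + 2) / 9 := rfl

theorem nine_mem {x : ℝ} (hx : x ∈ cantorSet) (h1 : 1 / 9 < x) (h2 : x < 2 / 3) :
    9 * x - 2 ∈ cantorSet ∧ 2 / 9 ≤ x ∧ x ≤ 1 / 3 := by
  obtain ⟨h3, h4⟩ := K_three hx h2
  obtain ⟨h5, h6⟩ := K_three' h3 (by linarith)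
  refine ⟨?_, by linarith, h4⟩
  convert h5 using 1; ring

theorem mem_of_nine {x : ℝ} (h : 9 * x - 2 ∈ cantorSet) :
    x ∈ cantorSet ∧ 2 / 9 ≤ x ∧ x ≤ 1 / 3 := by
  have hb := K_bounds h
  refine ⟨?_, by linarith, by linarith⟩
  have := K_left (K_right h)
  convert this using 1; ring

theorem sigma_mem {x : ℝ} (hx : x ∈ cantorSet) : sigma x ∈ cantorSet := by
  rw [sigma_apply]
  by_cases h : 1 / 9 < x ∧ x < 2 / 3
  · have h1 := tau_mem (nine_mem hx h.1 h.2).1
    apply (mem_of_nine _).1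
    convert h1 using 1; ring
  · have h2 : tau (9 * x - 2) = 9 * x - 2 := by
      rw [not_and_or, not_lt, not_lt] at h
      rcases h with h | h
      · exact tau_of_nonpos (by linarith)
      · exact tau_of_one_le (by linarith)
    rw [h2]
    convert hx using 1; ring

theorem tau_symm_of_nonpos {x : ℝ} (h : x ≤ 0) : tau.symm x = x := by
  rw [OrderIso.symm_apply_eq, tau_of_nonpos h]

theorem tau_symm_of_one_le {x : ℝ} (h : 1 ≤ x) : tau.symm x = x := by
  rw [OrderIso.symm_apply_eq, tau_of_one_le h]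

theorem sigma_symm_mem {x : ℝ} (hx : x ∈ cantorSet) : sigma.symm x ∈ cantorSet := by
  rw [sigma_symm_apply]
  by_cases h : 1 / 9 < x ∧ x < 2 / 3
  · have h1 := tau_symm_mem (nine_mem hx h.1 h.2).1
    apply (mem_of_nine _).1
    convert h1 using 1; ring
  · have h2 : tau.symm (9 * x - 2) = 9 * x - 2 := by
      rw [not_and_or, not_lt, not_lt] at h
      rcases h with h | h
      · exact tau_symm_of_nonpos (by linarith)
      · exact tau_symm_of_one_le (by linarith)
    rw [h2]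
    convert hx using 1; ring

theorem hmap_C {f : ℝ ≃o ℝ} (h : ∀ x ∈ cantorSet, f x ∈ cantorSet)
    (h' : ∀ x ∈ cantorSet, f.symm x ∈ cantorSet) (z : ℂ) : z ∈ C ↔ hmap f z ∈ C := by
  constructor
  · rintro ⟨h1, h2⟩
    exact ⟨h1, h _ h2⟩
  · rintro ⟨h1, h2⟩
    refine ⟨h1, ?_⟩
    have := h' _ h2
    simpa using this

theorem hmap_mem_G0 {f : ℝ ≃o ℝ} (h : ∀ x ∈ cantorSet, f x ∈ cantorSet)
    (h' : ∀ x ∈ cantorSet, f.symm x ∈ cantorSet) (h0 : ∀ x ≤ 0, f x = x) : hmap f ∈ G0 := by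
  refine mem_G0 (hmap_C h h') (z₀ := -1) ?_
  have : ∀ᶠ w : ℂ in 𝓝 (-1), w.re < 0 :=
    Complex.continuous_re.continuousAt.eventually_lt_const (by simp)
  filter_upwards [this] with w hw
  apply Complex.ext
  · rw [hmap_re, h0 _ hw.le]
  · rfl

theorem norm_sub_real {z : ℂ} (hz : z ∈ C) (c : ℝ) : ‖z - c‖ = |z.re - c| := by
  have : z - c = ((z.re - c : ℝ) : ℂ) := by
    apply Complex.ext <;> simp [hz.1]
  rw [this, Complex.norm_real, Real.norm_eq_abs]

theorem twist_C {c r : ℝ} (hr : 0 < r)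
    (h : ∀ x ∈ cantorSet, |x - c| < 2 * r → |x - c| ≤ r ∧ 2 * c - x ∈ cantorSet) (z : ℂ) :
    z ∈ C ↔ twist c r z ∈ C := by
  have key : ∀ z ∈ C, twist c r z ∈ C := by
    intro z hz
    by_cases h1 : |z.re - c| < 2 * r
    · obtain ⟨h2, h3⟩ := h _ hz.2 h1
      rw [← norm_sub_real hz] at h2
      rw [twist_of_le hr h2]
      refine ⟨by simp [hz.1], ?_⟩
      simpa using h3
    · rw [not_lt, ← norm_sub_real hz] at h1
      rw [twist_of_ge hr h1]; exact hz
  refine ⟨key z, fun hz => ?_⟩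
  -- the point `w = twist z` lies in `C`; its preimage is `twist w` or `w`
  set w := twist c r z with hw
  by_cases h1 : |w.re - c| < 2 * r
  · obtain ⟨h2, h3⟩ := h _ hz.2 h1
    have h4 : twist c r (2 * c - w) = w := by
      have : ‖(2 * c - w) - c‖ ≤ r := by
        rw [← norm_sub_real hz] at h2
        have e : (2 * c - w) - c = -(w - c) := by ring
        rw [e, norm_neg]; exact h2
      rw [twist_of_le hr this]; ring
    have h5 : z = 2 * c - w := (twist c r).injective (by rw [h4])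
    rw [h5]
    refine ⟨by simp [hz.1], ?_⟩
    simpa using h3
  · rw [not_lt, ← norm_sub_real hz] at h1
    have h4 := twist_of_ge hr h1
    have h5 : z = w := (twist c r).injective (by rw [h4])
    rw [h5]; exact hz

theorem twist_mem_G0 {c r : ℝ} (hr : 0 < r)
    (h : ∀ x ∈ cantorSet, |x - c| < 2 * r → |x - c| ≤ r ∧ 2 * c - x ∈ cantorSet) :
    twist c r ∈ G0 := by
  refine mem_G0 (twist_C hr h) (z₀ := ((c + 3 * r : ℝ) : ℂ)) ?_
  have h1 : ∀ᶠ w : ℂ in 𝓝 ((c + 3 * r : ℝ) : ℂ), 2 * r < ‖w - c‖ := by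
    have : ContinuousAt (fun w : ℂ => ‖w - c‖) ((c + 3 * r : ℝ) : ℂ) := by fun_prop
    refine this.eventually_const_lt ?_
    show 2 * r < ‖((c + 3 * r : ℝ) : ℂ) - c‖
    rw [← Complex.ofReal_sub, Complex.norm_real, Real.norm_eq_abs, add_sub_cancel_left,
      abs_of_pos (by positivity)]
    linarith
  filter_upwards [h1] with w hw
  exact twist_of_ge hr hw.le

theorem cond1 : ∀ x ∈ cantorSet, |x - (5 / 18 : ℝ)| < 2 * (1 / 18) →
    |x - (5 / 18 : ℝ)| ≤ 1 / 18 ∧ 2 * (5 / 18) - x ∈ cantorSet := by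
  intro x hx h
  rw [abs_lt] at h
  obtain ⟨h1, h2, h3⟩ := nine_mem hx (by linarith) (by linarith)
  refine ⟨by rw [abs_le]; constructor <;> linarith, ?_⟩
  apply (mem_of_nine _).1
  convert K_symm h1 using 1; ring

theorem cond2 : ∀ x ∈ cantorSet, |x - (13 / 54 : ℝ)| < 2 * (1 / 54) →
    |x - (13 / 54 : ℝ)| ≤ 1 / 54 ∧ 2 * (13 / 54) - x ∈ cantorSet := by
  intro x hx h
  rw [abs_lt] at h
  obtain ⟨h1, h2, h3⟩ := nine_mem hx (by linarith) (by linarith)
  obtain ⟨h4, h5⟩ := K_three h1 (by linarith)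
  refine ⟨by rw [abs_le]; constructor <;> linarith, ?_⟩
  apply (mem_of_nine _).1
  convert K_left (K_symm h4) using 1; ring

/-- The half twist exchanging the two halves of `C ∩ [2/9, 1/3]`. -/
noncomputable def A1 : G0 := ⟨twist (5 / 18 : ℝ) (1 / 18), twist_mem_G0 (by norm_num) cond1⟩

/-- The half twist exchanging the two quarters of `C ∩ [2/9, 7/27]`. -/
noncomputable def A2 : G0 := ⟨twist (13 / 54 : ℝ) (1 / 54), twist_mem_G0 (by norm_num) cond2⟩

/-- The product of the copy of `τ` on `[2/9, 1/3]` with the identity. -/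
noncomputable def A3 : G0 := ⟨hmap sigma, hmap_mem_G0 (fun _ h => sigma_mem h)
  (fun _ h => sigma_symm_mem h) (fun x hx => by
    rw [sigma_apply, tau_of_nonpos (by linarith)]; ring)⟩

/-- The product of `τ` with the identity. -/
noncomputable def T : G0 := ⟨hmap tau, hmap_mem_G0 (fun _ h => tau_mem h)
  (fun _ h => tau_symm_mem h) (fun _ hx => tau_of_nonpos hx)⟩

/-! Supports. -/

/-- `f` is the identity outside the open vertical strip between `a` and `b`. -/
def SuppIn (f : ℂ ≃ₜ ℂ) (a b : ℝ) : Prop := ∀ z : ℂ, (z.re ≤ a ∨ b ≤ z.re) → f z = z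

theorem SuppIn.mono {f : ℂ ≃ₜ ℂ} {a b a' b' : ℝ} (h : SuppIn f a b) (ha : a' ≤ a) (hb : b ≤ b') :
    SuppIn f a' b' := fun z hz => h z (hz.imp (fun h => h.trans ha) (fun h => hb.trans h))

theorem SuppIn.one (a b : ℝ) : SuppIn 1 a b := fun _ _ => rfl

theorem SuppIn.mul {f g : ℂ ≃ₜ ℂ} {a b : ℝ} (hf : SuppIn f a b) (hg : SuppIn g a b) :
    SuppIn (f * g) a b := fun z hz => by
  show f (g z) = z
  rw [hg z hz, hf z hz]

theorem SuppIn.inv {f : ℂ ≃ₜ ℂ} {a b : ℝ} (hf : SuppIn f a b) : SuppIn f⁻¹ a b := fun z hz => by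
  show f.symm z = z
  rw [Homeomorph.symm_apply_eq, hf z hz]

theorem SuppIn.commute {f g : ℂ ≃ₜ ℂ} {a b c d : ℝ} (hf : SuppIn f a b) (hg : SuppIn g c d)
    (hbc : b ≤ c) : Commute f g := by
  have h : Equiv.Perm.Disjoint (f.toEquiv : Equiv.Perm ℂ) (g.toEquiv : Equiv.Perm ℂ) := by
    intro z
    rcases le_total z.re b with h1 | h1
    · exact Or.inr (hg z (Or.inl (h1.trans hbc)))
    · exact Or.inl (hf z (Or.inr h1))
  have h2 := h.commute
  apply Homeomorph.ext
  intro z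
  exact congrArg (fun e : Equiv.Perm ℂ => e z) h2.eq

/-- `hmap` as a homomorphism -/
noncomputable def hmapHom : (ℝ ≃o ℝ) →* (ℂ ≃ₜ ℂ) where
  toFun := hmap
  map_one' := by ext z; rfl
  map_mul' f g := by ext z; rfl

theorem SuppIn.conj {f : ℂ ≃ₜ ℂ} {a b : ℝ} (hf : SuppIn f a b) (s : ℝ ≃o ℝ) :
    SuppIn (hmap s * f * (hmap s)⁻¹) (s a) (s b) := by
  intro z hz
  show hmap s (f ((hmap s).symm z)) = z
  have h1 : f ((hmap s).symm z) = (hmap s).symm z := by
    apply hf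
    have e : ((hmap s).symm z).re = s.symm z.re := rfl
    rw [e]
    rcases hz with h | h
    · exact Or.inl (s.symm_apply_le.2 h)
    · exact Or.inr (s.le_symm_apply.2 h)
  rw [h1, Homeomorph.apply_symm_apply]

end Pool.Agent.Q192.QM
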