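import Mathlib

/-! Homogeneous quasimorphisms: basic facts and a vanishing criterion for groups of the form
`N ⋊ ⟨t⟩` in which powers of `t` displace any two elements of `N`. -/

set_option autoImplicit false

namespace Pool.Agent.Q192.QM

/-- `φ` is a homogeneous quasimorphism on the group `H`. -/
def IsHQM {H : Type*} [Group H] (φ : H → ℝ) : Prop :=
  (∃ D : ℝ, ∀ g h : H, |φ (g * h) - φ g - φ h| ≤ D) ∧ ∀ (g : H) (n : ℤ), φ (g ^ n) = n * φ g

section
variable {G : Type*} [Group G] {φ : G → ℝ}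

theorem eq_zero_of_bdd {x D : ℝ} (h : ∀ n : ℕ, n * |x| ≤ D) : x = 0 := by
  by_contra hx
  have hx' : 0 < |x| := abs_pos.2 hx
  obtain ⟨n, hn⟩ := exists_nat_gt (D / |x|)
  have := h n
  rw [div_lt_iff₀ hx'] at hn
  linarith

theorem IsHQM.pow (h : IsHQM φ) (g : G) (n : ℕ) : φ (g ^ n) = n * φ g := by
  have := h.2 g n
  simpa using this

theorem IsHQM.one (h : IsHQM φ) : φ 1 = 0 := by
  have := h.2 1 0
  simpa using this

/-- additivity on commuting pairs -/
theorem IsHQM.commute (h : IsHQM φ) {a b : G} (hab : Commute a b) : φ (a * b) = φ a + φ b := by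
  obtain ⟨D, hD⟩ := h.1
  have : φ (a * b) - φ a - φ b = 0 := by
    refine eq_zero_of_bdd (D := D) fun n => ?_
    have h1 := hD (a ^ n) (b ^ n)
    rw [← hab.mul_pow, h.pow, h.pow, h.pow] at h1
    rw [← Nat.abs_cast n, ← abs_mul]
    rw [mul_sub, mul_sub]
    exact h1
  linarith

/-- conjugation invariance -/
theorem IsHQM.conj (h : IsHQM φ) (s a : G) : φ (s * a * s⁻¹) = φ a := by
  obtain ⟨D, hD⟩ := h.1
  have key : φ (s * a * s⁻¹) - φ a = 0 := by
    refine eq_zero_of_bdd (D := 2 * D + |φ s| + |φ s⁻¹|) fun n => ?_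
    have h1 := hD (s * a ^ n) s⁻¹
    have h2 := hD s (a ^ n)
    have h3 : s * a ^ n * s⁻¹ = (s * a * s⁻¹) ^ n := by
      rw [conj_pow]
    rw [h3, h.pow] at h1
    rw [h.pow] at h2
    rw [← Nat.abs_cast n, ← abs_mul]
    have h4 : (n : ℝ) * (φ (s * a * s⁻¹) - φ a) =
      (n * φ (s * a * s⁻¹) - φ (s * a ^ n) - φ s⁻¹) + (φ (s * a ^ n) - φ s - n * φ a) + φ s +
        φ s⁻¹ := by ring
    rw [h4]
    refine (abs_add_le _ _).trans ?_
    gcongr
    refine (abs_add_le _ _).trans ?_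
    gcongr
    refine (abs_add_le _ _).trans ?_
    linarith
  linarith

/-- The ordered product `∏_{i<n} s^i a s^{-i}`. -/
def shiftProd (s a : G) : ℕ → G
  | 0 => 1
  | n + 1 => shiftProd s a n * (s ^ n * a * (s ^ n)⁻¹)

theorem shiftProd_eq (s a : G) (n : ℕ) : shiftProd s a n * s ^ n = (a * s) ^ n := by
  induction n with
  | zero => simp [shiftProd]
  | succ n ih =>
    rw [shiftProd, pow_succ (a * s) n, ← ih, pow_succ s n]
    group

/-- If the shifts of `a` commute with the shifts of `b` at different places. -/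
theorem shiftProd_commute {s a b : G}
    (hab : ∀ i j : ℕ, i ≠ j → Commute (s ^ i * a * (s ^ i)⁻¹) (s ^ j * b * (s ^ j)⁻¹)) (n j : ℕ)
    (hj : n ≤ j) : Commute (shiftProd s a n) (s ^ j * b * (s ^ j)⁻¹) := by
  induction n with
  | zero => exact Commute.one_left _
  | succ n ih => exact (ih (by omega)).mul_left (hab n j (by omega))

theorem shiftProd_mul {s a b : G}
    (hab : ∀ i j : ℕ, i ≠ j → Commute (s ^ i * a * (s ^ i)⁻¹) (s ^ j * b * (s ^ j)⁻¹)) (n : ℕ) :
    shiftProd s (a * b) n = shiftProd s a n * shiftProd s b n := by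
  induction n with
  | zero => simp [shiftProd]
  | succ n ih =>
    rw [shiftProd, shiftProd, shiftProd, ih]
    have h1 : Commute (shiftProd s b n) (s ^ n * a * (s ^ n)⁻¹) :=
      shiftProd_commute (fun i j hij => (hab j i hij.symm).symm) n n le_rfl
    have h2 : s ^ n * (a * b) * (s ^ n)⁻¹ = (s ^ n * a * (s ^ n)⁻¹) * (s ^ n * b * (s ^ n)⁻¹) := by
      group
    rw [h2]
    calc shiftProd s a n * shiftProd s b n * ((s ^ n * a * (s ^ n)⁻¹) * (s ^ n * b * (s ^ n)⁻¹))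
        = shiftProd s a n * (shiftProd s b n * (s ^ n * a * (s ^ n)⁻¹)) *
            (s ^ n * b * (s ^ n)⁻¹) := by simp only [mul_assoc]
      _ = shiftProd s a n * ((s ^ n * a * (s ^ n)⁻¹) * shiftProd s b n) *
            (s ^ n * b * (s ^ n)⁻¹) := by rw [h1.eq]
      _ = _ := by simp only [mul_assoc]

theorem IsHQM.shiftProd (h : IsHQM φ) {s a : G}
    (haa : ∀ i j : ℕ, i ≠ j → Commute (s ^ i * a * (s ^ i)⁻¹) (s ^ j * a * (s ^ j)⁻¹)) (n : ℕ) :
    φ (shiftProd s a n) = n * φ a := by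
  induction n with
  | zero => simp [QM.shiftProd, h.one]
  | succ n ih =>
    rw [QM.shiftProd, h.commute (shiftProd_commute haa n n le_rfl), ih, h.conj]
    push_cast; ring

/-- Additivity on pairs with commuting shifts. -/
theorem IsHQM.add_of_shift (h : IsHQM φ) {s a b : G}
    (haa : ∀ i j : ℕ, i ≠ j → Commute (s ^ i * a * (s ^ i)⁻¹) (s ^ j * a * (s ^ j)⁻¹))
    (hbb : ∀ i j : ℕ, i ≠ j → Commute (s ^ i * b * (s ^ i)⁻¹) (s ^ j * b * (s ^ j)⁻¹))
    (hab : ∀ i j : ℕ, i ≠ j → Commute (s ^ i * a * (s ^ i)⁻¹) (s ^ j * b * (s ^ j)⁻¹)) :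
    φ (a * b) = φ a + φ b := by
  obtain ⟨D, hD⟩ := h.1
  have hprod : ∀ i j : ℕ, i ≠ j →
      Commute (s ^ i * (a * b) * (s ^ i)⁻¹) (s ^ j * (a * b) * (s ^ j)⁻¹) := by
    intro i j hij
    have e : ∀ k : ℕ, s ^ k * (a * b) * (s ^ k)⁻¹ =
        (s ^ k * a * (s ^ k)⁻¹) * (s ^ k * b * (s ^ k)⁻¹) := fun k => by group
    rw [e, e]
    exact ((haa i j hij).mul_right (hab i j hij)).mul_left
      ((hab j i hij.symm).symm.mul_right (hbb i j hij))
  have : φ (a * b) - φ a - φ b = 0 := by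
    refine eq_zero_of_bdd (D := D) fun n => ?_
    have h1 := hD (QM.shiftProd s a n) (QM.shiftProd s b n)
    rw [← shiftProd_mul hab, h.shiftProd hprod, h.shiftProd haa, h.shiftProd hbb] at h1
    rw [← Nat.abs_cast n, ← abs_mul]
    rw [mul_sub, mul_sub]
    exact h1
  linarith

/-- **Vanishing criterion.** `N` is normalised by `t`, every element of `G` is `n * t ^ j` with
`n ∈ N`, and any two elements of `N` have commuting shifts for some power of `t`. Then every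
homogeneous quasimorphism of `G` is a homomorphism. -/
theorem IsHQM.hom_of_displacement (h : IsHQM φ) (N : Subgroup G) (t : G)
    (hN : ∀ (j : ℤ), ∀ a ∈ N, t ^ j * a * (t ^ j)⁻¹ ∈ N)
    (hG : ∀ g : G, ∃ a ∈ N, ∃ j : ℤ, g = a * t ^ j)
    (hdisp : ∀ a ∈ N, ∀ b ∈ N, ∃ m : ℕ, ∀ i j : ℕ, i ≠ j →
      Commute ((t ^ m) ^ i * a * ((t ^ m) ^ i)⁻¹) ((t ^ m) ^ j * a * ((t ^ m) ^ j)⁻¹) ∧
      Commute ((t ^ m) ^ i * b * ((t ^ m) ^ i)⁻¹) ((t ^ m) ^ j * b * ((t ^ m) ^ j)⁻¹) ∧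
      Commute ((t ^ m) ^ i * a * ((t ^ m) ^ i)⁻¹) ((t ^ m) ^ j * b * ((t ^ m) ^ j)⁻¹))
    (g g' : G) : φ (g * g') = φ g + φ g' := by
  have hadd : ∀ a ∈ N, ∀ b ∈ N, φ (a * b) = φ a + φ b := by
    intro a ha b hb
    obtain ⟨m, hm⟩ := hdisp a ha b hb
    exact h.add_of_shift (s := t ^ m) (fun i j hij => (hm i j hij).1)
      (fun i j hij => (hm i j hij).2.1) (fun i j hij => (hm i j hij).2.2)
  have hconjN : ∀ (s : G), (∀ a ∈ N, s * a * s⁻¹ ∈ N) → ∀ (n : ℕ) (a : G), a ∈ N →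
      s ^ n * a * (s ^ n)⁻¹ ∈ N := by
    intro s hs n
    induction n with
    | zero => intro a ha; simpa using ha
    | succ n ih =>
      intro a ha
      have := ih _ (hs a ha)
      have e : s ^ (n + 1) * a * (s ^ (n + 1))⁻¹ = s ^ n * (s * a * s⁻¹) * (s ^ n)⁻¹ := by
        rw [pow_succ]; group
      rw [e]; exact this
  have hsp : ∀ (s : G), (∀ a ∈ N, s * a * s⁻¹ ∈ N) → ∀ (n : ℕ) (a : G), a ∈ N →
      QM.shiftProd s a n ∈ N ∧ φ (QM.shiftProd s a n) = n * φ a := by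
    intro s hs n a ha
    induction n with
    | zero => exact ⟨N.one_mem, by simp [QM.shiftProd, h.one]⟩
    | succ n ih =>
      refine ⟨N.mul_mem ih.1 (hconjN s hs n a ha), ?_⟩
      rw [QM.shiftProd, hadd _ ih.1 _ (hconjN s hs n a ha), ih.2, h.conj]
      push_cast; ring
  have htj : ∀ a ∈ N, ∀ j : ℤ, φ (a * t ^ j) = φ a + j * φ t := by
    intro a ha j
    obtain ⟨D, hD⟩ := h.1
    have : φ (a * t ^ j) - φ a - j * φ t = 0 := by
      refine eq_zero_of_bdd (D := D) fun n => ?_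
      have h1 := hD (QM.shiftProd (t ^ j) a n) ((t ^ j) ^ n)
      rw [shiftProd_eq, h.pow, h.pow, (hsp (t ^ j) (fun b hb => hN j b hb) n a ha).2, h.2 t j] at h1
      rw [← Nat.abs_cast n, ← abs_mul]
      rw [mul_sub, mul_sub]
      convert h1 using 3
    linarith
  obtain ⟨a, ha, j, rfl⟩ := hG g
  obtain ⟨b, hb, k, rfl⟩ := hG g'
  have e : a * t ^ j * (b * t ^ k) = (a * (t ^ j * b * (t ^ j)⁻¹)) * t ^ (j + k) := by
    rw [zpow_add]; group
  rw [e, htj _ (N.mul_mem ha (hN j b hb)), hadd _ ha _ (hN j b hb), h.conj, htj a ha, htj b hb]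
  push_cast; ring

end

end Pool.Agent.Q192.QM
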