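import Pool.Agent.Q192.QM.Surf

/-! A homeomorphism of the plane whose restriction to `ℂ ∖ C` is isotopic to the identity fixes
`C` pointwise. -/

set_option autoImplicit false

open Complex Topology unitInterval
open Pool.Agent.H659R3.BigMCG

namespace Pool.Agent.Q192.QM

/-- The continuous function cutting out an open rectangle with vertical sides `-1` and `g`. -/
noncomputable def cut (g : ℝ) (z : ℂ) : ℝ := max (z.re - g) (max (-1 - z.re) (|z.im| - 1))

theorem continuous_cut (g : ℝ) : Continuous (cut g) := by unfold cut; fun_prop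

theorem isCompact_cut (g : ℝ) : IsCompact {z : ℂ | cut g z = 0} := by
  have hcl : IsClosed {z : ℂ | cut g z = 0} := isClosed_eq (continuous_cut g) continuous_const
  refine (isCompact_closedBall (0 : ℂ) (|g| + 2)).of_isClosed_subset hcl ?_
  intro z hz
  have hz : cut g z = 0 := hz
  unfold cut at hz
  have h1 : z.re - g ≤ 0 := by rw [← hz]; exact le_max_left _ _
  have h2 : -1 - z.re ≤ 0 := by
    rw [← hz]; exact (le_max_left _ _).trans (le_max_right _ _)
  have h3 : |z.im| - 1 ≤ 0 := by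
    rw [← hz]; exact (le_max_right _ _).trans (le_max_right _ _)
  rw [Metric.mem_closedBall, dist_zero_right]
  refine (Complex.norm_le_abs_re_add_abs_im z).trans ?_
  have h4 : |z.re| ≤ |g| + 1 := by
    rw [abs_le]
    constructor
    · have := abs_nonneg g; linarith
    · have := le_abs_self g; linarith
  linarith

theorem cut_ne_zero {g : ℝ} (hg : g ∉ cantorSet) {z : ℂ} (hz : z ∈ C) : cut g z ≠ 0 := by
  intro h
  unfold cut at h
  have hb := K_bounds hz.2
  rcases le_total (z.re - g) (max (-1 - z.re) (|z.im| - 1)) with h1 | h1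
  · rw [max_eq_right h1, hz.1] at h
    rcases le_total (-1 - z.re) (|(0 : ℝ)| - 1) with h2 | h2
    · rw [max_eq_right h2] at h; simp at h
    · rw [max_eq_left h2] at h; linarith
  · rw [max_eq_left h1] at h
    have : z.re = g := by linarith
    exact hg (this ▸ hz.2)

theorem fix_of_isotopic {f : G0} (h : IsotopicToId (restr f)) {x : ℂ} (hx : x ∈ C) :
    (f : ℂ ≃ₜ ℂ) x = x := by
  by_contra hne
  set y := (f : ℂ ≃ₜ ℂ) x with hy
  have hyC : y ∈ C := (f.2.1 x).1 hx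
  have hre : x.re ≠ y.re := by
    intro h'
    apply hne
    apply Complex.ext h'.symm
    rw [hx.1, hyC.1]
  -- a separating rectangle
  obtain ⟨g, hg, hsep⟩ : ∃ g, g ∉ cantorSet ∧ (cut g x < 0 ∧ 0 < cut g y ∨
      0 < cut g x ∧ cut g y < 0) := by
    have hneg : ∀ (g : ℝ) (z : ℂ), z ∈ C → z.re < g → cut g z < 0 := by
      intro g z hz hzg
      have hb := K_bounds hz.2
      unfold cut
      rw [max_lt_iff, max_lt_iff, hz.1]
      refine ⟨by linarith, by linarith, by simp⟩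
    have hpos : ∀ (g : ℝ) (z : ℂ), g < z.re → 0 < cut g z := by
      intro g z hzg
      exact lt_of_lt_of_le (by linarith) (le_max_left _ _)
    rcases lt_or_gt_of_ne hre with h1 | h1
    · obtain ⟨g, h2, h3, h4⟩ := K_gap h1
      exact ⟨g, h4, Or.inl ⟨hneg g x hx h2, hpos g y h3⟩⟩
    · obtain ⟨g, h2, h3, h4⟩ := K_gap h1
      exact ⟨g, h4, Or.inr ⟨hpos g x h3, hneg g y hyC h2⟩⟩
  obtain ⟨Φ, hΦ1, hΦ2, hΦ3⟩ := h
  -- the compact set
  let F : Set S := Subtype.val ⁻¹' {z : ℂ | cut g z = 0}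
  have hF : IsCompact F := by
    apply isOpenEmbedding_val.toIsEmbedding.isCompact_iff.2
    convert isCompact_cut g using 1
    ext z
    constructor
    · rintro ⟨p, hp, rfl⟩; exact hp
    · intro hz
      exact ⟨⟨z, fun hzC => cut_ne_zero hg hzC hz⟩, hz, rfl⟩
  let Q : Set S := Prod.fst '' (Φ.symm '' (F ×ˢ (Set.univ : Set I)))
  have hQ : IsCompact Q :=
    ((hF.prod isCompact_univ).image Φ.symm.continuous).image continuous_fst
  have hQ' : IsClosed (Subtype.val '' Q : Set ℂ) :=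
    (hQ.image continuous_subtype_val).isClosed
  have hxQ : x ∉ (Subtype.val '' Q : Set ℂ) := by
    rintro ⟨p, -, rfl⟩; exact p.2 hx
  -- points near `x`
  have hev : ∀ᶠ w in 𝓝 x, w ∉ (Subtype.val '' Q : Set ℂ) ∧
      (cut g w < 0 ∧ 0 < cut g ((f : ℂ ≃ₜ ℂ) w) ∨ 0 < cut g w ∧ cut g ((f : ℂ ≃ₜ ℂ) w) < 0) := by
    have c1 : Filter.Tendsto (cut g) (𝓝 x) (𝓝 (cut g x)) := (continuous_cut g).continuousAt
    have c2 : Filter.Tendsto (fun w => cut g ((f : ℂ ≃ₜ ℂ) w)) (𝓝 x) (𝓝 (cut g y)) :=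
      ((continuous_cut g).comp (f : ℂ ≃ₜ ℂ).continuous).continuousAt
    have c0 : ∀ᶠ w in 𝓝 x, w ∉ (Subtype.val '' Q : Set ℂ) := hQ'.isOpen_compl.mem_nhds hxQ
    refine c0.and ?_
    rcases hsep with ⟨h1, h2⟩ | ⟨h1, h2⟩
    · filter_upwards [c1.eventually_lt_const h1, c2.eventually_const_lt h2] with w h3 h4
      exact Or.inl ⟨h3, h4⟩
    · filter_upwards [c1.eventually_const_lt h1, c2.eventually_lt_const h2] with w h3 h4
      exact Or.inr ⟨h3, h4⟩
  obtain ⟨ε, hε, hball⟩ := Metric.eventually_nhds_iff.1 hev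
  let w : ℂ := x + ((ε / 2 : ℝ) : ℂ) * Complex.I
  have hwim : w.im = ε / 2 := by simp [w, hx.1]
  have hwd : dist w x < ε := by
    rw [dist_eq_norm]
    simp only [w, add_sub_cancel_left, norm_mul, Complex.norm_real, Complex.norm_I, mul_one]
    rw [Real.norm_of_nonneg (by positivity)]
    linarith
  have hwC : w ∉ C := not_mem_C_of_im (by rw [hwim]; positivity)
  obtain ⟨hw1, hw2⟩ := hball hwd
  let p : S := ⟨w, hwC⟩
  let c : I → ℝ := fun t => cut g ((Φ (p, t)).1 : S)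
  have hc : Continuous c := by
    refine (continuous_cut g).comp (continuous_subtype_val.comp (continuous_fst.comp
      (Φ.continuous.comp ?_)))
    fun_prop
  have hc0 : c 0 = cut g w := by simp only [c, hΦ2, p]
  have hc1 : c 1 = cut g ((f : ℂ ≃ₜ ℂ) w) := by simp only [c, hΦ3, restr_apply, p]
  obtain ⟨t, ht⟩ : ∃ t, c t = 0 := by
    rcases hw2 with ⟨h1, h2⟩ | ⟨h1, h2⟩
    · exact mem_range_of_exists_le_of_exists_ge hc ⟨0, by rw [hc0]; exact h1.le⟩
        ⟨1, by rw [hc1]; exact h2.le⟩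
    · exact mem_range_of_exists_le_of_exists_ge hc ⟨1, by rw [hc1]; exact h2.le⟩
        ⟨0, by rw [hc0]; exact h1.le⟩
  apply hw1
  refine ⟨p, ⟨(p, t), ⟨Φ (p, t), ⟨ht, trivial⟩, ?_⟩, rfl⟩, rfl⟩
  exact Φ.symm_apply_apply _

/-- The class of a homeomorphism of the plane determines its action on `C`. -/
theorem eq_of_pi_eq {f g : G0} (h : pi f = pi g) {x : ℂ} (hx : x ∈ C) :
    (f : ℂ ≃ₜ ℂ) x = (g : ℂ ≃ₜ ℂ) x := by
  have h1 : pi (f⁻¹ * g) = 1 := by rw [map_mul, map_inv, h, inv_mul_cancel]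
  have h2 : restrHom (f⁻¹ * g) ∈ HomeoZero S := by
    have := (toMap_eq (a := (1 : HomeoPlus S)) (b := restrHom (f⁻¹ * g))).1 (by
      rw [map_one]; exact h1.symm)
    simpa using this
  have h3 := fix_of_isotopic (f := f⁻¹ * g) h2 hx
  have h4 : (f : ℂ ≃ₜ ℂ) (((f⁻¹ * g : G0) : ℂ ≃ₜ ℂ) x) = (g : ℂ ≃ₜ ℂ) x := by
    show (f : ℂ ≃ₜ ℂ) ((f : ℂ ≃ₜ ℂ).symm ((g : ℂ ≃ₜ ℂ) x)) = _
    exact Homeomorph.apply_symm_apply _ _
  rw [← h4, h3]

end Pool.Agent.Q192.QM
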