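import Pool.Agent.Q192.QM.Elem
import Pool.Agent.Q192.QM.Grp
import Pool.Agent.Q192.QM.Amen

/-! The group generated by the four homeomorphisms. -/

set_option autoImplicit false

open Complex Topology
open Pool.Agent.H659R3.BigMCG

namespace Pool.Agent.Q192.QM

/-- The orbit of `1/6` under `τ`. -/
noncomputable def u (k : ℤ) : ℝ := (tau ^ k) (1 / 6)

theorem u_zero : u 0 = 1 / 6 := by simp [u]

theorem u_one : u 1 = 1 / 2 := by
  unfold u
  rw [zpow_one, tau_apply, tauFun]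
  norm_num

theorem u_mono : Monotone u := by
  apply monotone_int_of_le_succ
  intro n
  unfold u
  rw [zpow_add, zpow_one]
  have h : (tau ^ n * tau) (1 / 6 : ℝ) = (tau ^ n) (tau (1 / 6)) := rfl
  rw [h]
  exact (tau ^ n).monotone (le_tau _)

theorem T_zpow (k : ℤ) : ((T ^ k : G0) : ℂ ≃ₜ ℂ) = hmap (tau ^ k) := by
  rw [SubgroupClass.coe_zpow]
  exact (map_zpow hmapHom tau k).symm

theorem SuppIn.shift {f : G0} {a b : ℤ} (hf : SuppIn f (u a) (u b)) (k : ℤ) :
    SuppIn ((T ^ k * f * (T ^ k)⁻¹ : G0) : ℂ ≃ₜ ℂ) (u (a + k)) (u (b + k)) := by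
  have h := hf.conj (tau ^ k)
  have e1 : ((T ^ k * f * (T ^ k)⁻¹ : G0) : ℂ ≃ₜ ℂ) = hmap (tau ^ k) * f * (hmap (tau ^ k))⁻¹ := by
    rw [Subgroup.coe_mul, Subgroup.coe_mul, Subgroup.coe_inv, T_zpow]
  have e2 : ∀ c : ℤ, u (c + k) = (tau ^ k) (u c) := by
    intro c
    unfold u
    rw [add_comm, zpow_add]; rfl
  rw [e1, e2, e2]; exact h

theorem supp_A1 : SuppIn A1 (u 0) (u 1) := by
  intro z hz
  rw [u_zero, u_one] at hz
  apply twist_of_ge (by norm_num)
  have h1 : |(z - (5 / 18 : ℝ)).re| ≤ ‖z - (5 / 18 : ℝ)‖ := Complex.abs_re_le_norm _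
  rw [Complex.sub_re, Complex.ofReal_re] at h1
  rcases hz with h | h
  · have := neg_abs_le (z.re - 5 / 18); linarith
  · have := le_abs_self (z.re - 5 / 18); linarith

theorem supp_A2 : SuppIn A2 (u 0) (u 1) := by
  intro z hz
  rw [u_zero, u_one] at hz
  apply twist_of_ge (by norm_num)
  have h1 : |(z - (13 / 54 : ℝ)).re| ≤ ‖z - (13 / 54 : ℝ)‖ := Complex.abs_re_le_norm _
  rw [Complex.sub_re, Complex.ofReal_re] at h1
  rcases hz with h | h
  · have := neg_abs_le (z.re - 13 / 54); linarith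
  · have := le_abs_self (z.re - 13 / 54); linarith

theorem supp_A3 : SuppIn A3 (u 0) (u 1) := by
  intro z hz
  rw [u_zero, u_one] at hz
  show hmap sigma z = z
  apply Complex.ext
  · rw [hmap_re, sigma_apply]
    rcases hz with h | h
    · rw [tau_of_nonpos (by linarith)]; ring
    · rw [tau_of_one_le (by linarith)]; ring
  · rfl

/-- The group generated by the four homeomorphisms. -/
noncomputable def E : Subgroup G0 := Subgroup.closure {A1, A2, A3, T}

/-- The lamp group -/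
noncomputable def E0 : Subgroup G0 := Subgroup.closure {A1, A2, A3}

theorem T_mem : T ∈ E := Subgroup.subset_closure (by simp)

theorem E_decomp {g : G0} (hg : g ∈ E) :
    ∃ j : ℤ, ∃ m : ℕ, SuppIn ((g * (T ^ j)⁻¹ : G0) : ℂ ≃ₜ ℂ) (u (-m)) (u m) := by
  have hbase : ∀ f : G0, SuppIn f (u 0) (u 1) →
      ∃ j : ℤ, ∃ m : ℕ, SuppIn ((f * (T ^ j)⁻¹ : G0) : ℂ ≃ₜ ℂ) (u (-m)) (u m) := by
    intro f hf
    refine ⟨0, 1, ?_⟩
    rw [zpow_zero, inv_one, mul_one]
    exact hf.mono (u_mono (by norm_num)) (u_mono (by norm_num))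
  have hwid : ∀ (f : G0) (m m' : ℕ), m ≤ m' → SuppIn f (u (-m)) (u m) →
      SuppIn f (u (-m')) (u m') := by
    intro f m m' hmm hf
    exact hf.mono (u_mono (by omega)) (u_mono (by omega))
  unfold E at hg
  induction hg using Subgroup.closure_induction with
  | mem x hx =>
    simp only [Set.mem_insert_iff, Set.mem_singleton_iff] at hx
    rcases hx with rfl | rfl | rfl | rfl
    · exact hbase _ supp_A1
    · exact hbase _ supp_A2
    · exact hbase _ supp_A3
    · refine ⟨1, 0, ?_⟩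
      rw [zpow_one, mul_inv_cancel]
      exact SuppIn.one _ _
  | one =>
    refine ⟨0, 0, ?_⟩
    rw [zpow_zero, inv_one, mul_one]
    exact SuppIn.one _ _
  | mul x y _ _ hx hy =>
    obtain ⟨j, m, hj⟩ := hx
    obtain ⟨k, n, hk⟩ := hy
    refine ⟨j + k, m + n + j.natAbs, ?_⟩
    have e : x * y * (T ^ (j + k))⁻¹ = (x * (T ^ j)⁻¹) * (T ^ j * (y * (T ^ k)⁻¹) * (T ^ j)⁻¹) := by
      rw [zpow_add]; group
    rw [e, Subgroup.coe_mul]
    refine SuppIn.mul (hwid _ _ _ (by omega) hj) ?_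
    exact (hk.shift j).mono (u_mono (by omega)) (u_mono (by omega))
  | inv x _ hx =>
    obtain ⟨j, m, hj⟩ := hx
    refine ⟨-j, m + j.natAbs, ?_⟩
    have e : x⁻¹ * (T ^ (-j))⁻¹ = T ^ (-j) * (x * (T ^ j)⁻¹)⁻¹ * (T ^ (-j))⁻¹ := by group
    rw [e]
    have h1 : SuppIn (((x * (T ^ j)⁻¹)⁻¹ : G0) : ℂ ≃ₜ ℂ) (u (-m)) (u m) := by
      rw [Subgroup.coe_inv]; exact hj.inv
    exact (h1.shift (-j)).mono (u_mono (by omega)) (u_mono (by omega))

/-- Homogeneous quasimorphisms on `E` are homomorphisms. -/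
theorem E_hom {φ : E → ℝ} (h : IsHQM φ) (g g' : E) : φ (g * g') = φ g + φ g' := by
  let N : Subgroup E :=
    { carrier := {g | ∃ m : ℕ, SuppIn ((g : G0) : ℂ ≃ₜ ℂ) (u (-m)) (u m)}
      one_mem' := ⟨0, SuppIn.one _ _⟩
      mul_mem' := by
        rintro a b ⟨m, hm⟩ ⟨n, hn⟩
        refine ⟨m + n, ?_⟩
        rw [Subgroup.coe_mul, Subgroup.coe_mul]
        exact (hm.mono (u_mono (by omega)) (u_mono (by omega))).mul
          (hn.mono (u_mono (by omega)) (u_mono (by omega)))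
      inv_mem' := by
        rintro a ⟨m, hm⟩
        refine ⟨m, ?_⟩
        rw [Subgroup.coe_inv, Subgroup.coe_inv]
        exact hm.inv }
  let t : E := ⟨T, T_mem⟩
  have hcoe : ∀ (j : ℤ) (a : E), ((t ^ j * a * (t ^ j)⁻¹ : E) : G0) = T ^ j * a * (T ^ j)⁻¹ :=
    fun j a => rfl
  refine h.hom_of_displacement N t ?_ ?_ ?_ g g'
  · rintro j a ⟨m, hm⟩
    refine ⟨m + j.natAbs, ?_⟩
    rw [hcoe]
    exact (hm.shift j).mono (u_mono (by omega)) (u_mono (by omega))
  · intro g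
    obtain ⟨j, m, hj⟩ := E_decomp g.2
    exact ⟨g * (t ^ j)⁻¹, ⟨m, hj⟩, j, by group⟩
  · rintro a ⟨m, hm⟩ b ⟨n, hn⟩
    have hm' : SuppIn ((a : G0) : ℂ ≃ₜ ℂ) (u (-(m + n : ℕ))) (u (m + n : ℕ)) :=
      hm.mono (u_mono (by push_cast; omega)) (u_mono (by push_cast; omega))
    have hn' : SuppIn ((b : G0) : ℂ ≃ₜ ℂ) (u (-(m + n : ℕ))) (u (m + n : ℕ)) :=
      hn.mono (u_mono (by push_cast; omega)) (u_mono (by push_cast; omega))
    have hpow : ∀ i : ℕ, (t ^ (2 * (m + n))) ^ i = t ^ ((2 * (m + n) * i : ℕ) : ℤ) := by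
      intro i; rw [← pow_mul, zpow_natCast]
    have main : ∀ c d : E, SuppIn ((c : G0) : ℂ ≃ₜ ℂ) (u (-(m + n : ℕ))) (u (m + n : ℕ)) →
        SuppIn ((d : G0) : ℂ ≃ₜ ℂ) (u (-(m + n : ℕ))) (u (m + n : ℕ)) → ∀ i j : ℕ, i < j →
        Commute ((t ^ (2 * (m + n))) ^ i * c * ((t ^ (2 * (m + n))) ^ i)⁻¹)
          ((t ^ (2 * (m + n))) ^ j * d * ((t ^ (2 * (m + n))) ^ j)⁻¹) := by
      intro c d hc hd i j hij
      rw [hpow, hpow]
      have h1 := (hc.shift ((2 * (m + n) * i : ℕ) : ℤ)).commute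
        (hd.shift ((2 * (m + n) * j : ℕ) : ℤ)) (u_mono (by
          have : (m + n) * (i + 1) ≤ (m + n) * j := Nat.mul_le_mul_left _ hij
          push_cast
          zify at this
          nlinarith))
      apply Subtype.ext
      apply Subtype.ext
      exact h1.eq
    refine ⟨2 * (m + n), fun i j hij => ?_⟩
    rcases lt_or_gt_of_ne hij with h1 | h1
    · exact ⟨main a a hm' hm' i j h1, main b b hn' hn' i j h1, main a b hm' hn' i j h1⟩
    · exact ⟨(main a a hm' hm' j i h1).symm, (main b b hn' hn' j i h1).symm,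
        (main b a hn' hm' j i h1).symm⟩

/-- The subgroup of the mapping class group of the plane minus a Cantor set generated by the
classes of the four homeomorphisms. -/
noncomputable def H : Subgroup (Map S) := E.map pi

theorem H_fg : H.FG := by
  classical
  refine ⟨{pi A1, pi A2, pi A3, pi T}, ?_⟩
  unfold H E
  rw [MonoidHom.map_closure]
  congr 1
  simp [Set.image_insert_eq]

theorem H_hom {φ : H → ℝ} (h : IsHQM φ) (g g' : H) : φ (g * g') = φ g + φ g' := by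
  have hsurj : Function.Surjective (pi.subgroupMap E) := pi.subgroupMap_surjective E
  have hE : IsHQM (fun e : E => φ (pi.subgroupMap E e)) := by
    obtain ⟨⟨D, hD⟩, h2⟩ := h
    refine ⟨⟨D, fun a b => ?_⟩, fun a n => ?_⟩
    · simp only [map_mul]; exact hD _ _
    · simp only [map_zpow]; exact h2 _ _
  obtain ⟨a, rfl⟩ := hsurj g
  obtain ⟨b, rfl⟩ := hsurj g'
  have := E_hom hE a b
  simp only [map_mul] at this
  exact this

end Pool.Agent.Q192.QM
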