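import Pool.Agent.Q192.QM.Main

/-! The group `H` is not amenable. -/

set_option autoImplicit false

open Complex Topology
open Pool.Agent.H659R3.BigMCG

namespace Pool.Agent.Q192.QM

/-- The part of `C` between two vertical lines. -/
def piece (a b : ℝ) : Set ℂ := {z | z ∈ C ∧ a ≤ z.re ∧ z.re ≤ b}

theorem piece_split : piece (2 / 9) (1 / 3) = piece (2 / 9) (7 / 27) ∪ piece (8 / 27) (1 / 3) := by
  ext z
  constructor
  · rintro ⟨h1, h2, h3⟩
    have h4 := (nine_mem h1.2 (by linarith) (by linarith)).1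
    rcases K_cases h4 with h5 | h5
    · exact Or.inl ⟨h1, h2, by linarith [h5.2]⟩
    · exact Or.inr ⟨h1, by linarith [h5.2], h3⟩
  · rintro (⟨h1, h2, h3⟩ | ⟨h1, h2, h3⟩)
    · exact ⟨h1, h2, by linarith⟩
    · exact ⟨h1, by linarith, h3⟩

theorem piece_split' :
    piece (2 / 9) (7 / 27) = piece (2 / 9) (19 / 81) ∪ piece (20 / 81) (7 / 27) := by
  ext z
  constructor
  · rintro ⟨h1, h2, h3⟩
    have h4 := (nine_mem h1.2 (by linarith) (by linarith)).1
    have h6 := (K_three h4 (by linarith)).1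
    rcases K_cases h6 with h5 | h5
    · exact Or.inl ⟨h1, h2, by linarith [h5.2]⟩
    · exact Or.inr ⟨h1, by linarith [h5.2], h3⟩
  · rintro (⟨h1, h2, h3⟩ | ⟨h1, h2, h3⟩)
    · exact ⟨h1, h2, by linarith⟩
    · exact ⟨h1, by linarith, h3⟩

theorem piece_disj {a b c d : ℝ} (h : b < c) : Disjoint (piece a b) (piece c d) := by
  rw [Set.disjoint_left]
  rintro z ⟨-, -, h1⟩ ⟨-, h2, -⟩
  linarith

theorem twist_image {c r a b : ℝ} (hr : 0 < r)
    (h : ∀ x ∈ cantorSet, |x - c| < 2 * r → |x - c| ≤ r ∧ 2 * c - x ∈ cantorSet)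
    (ha : |a - c| ≤ r) (hb : |b - c| ≤ r) :
    (twist c r) '' (piece a b) = piece (2 * c - b) (2 * c - a) := by
  have hnorm : ∀ z ∈ C, a ≤ z.re → z.re ≤ b → ‖z - c‖ ≤ r := by
    intro z hz h1 h2
    rw [norm_sub_real hz, abs_le]
    rw [abs_le] at ha hb
    constructor <;> linarith
  have hre : ∀ z : ℂ, (2 * (c : ℂ) - z).re = 2 * c - z.re := by intro z; simp
  have him : ∀ z : ℂ, (2 * (c : ℂ) - z).im = - z.im := by intro z; simp
  ext z
  constructor
  · rintro ⟨w, ⟨h1, h2, h3⟩, rfl⟩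
    have h4 := hnorm w h1 h2 h3
    refine ⟨(twist_C hr h w).1 h1, ?_, ?_⟩
    · rw [twist_of_le hr h4, hre]; linarith
    · rw [twist_of_le hr h4, hre]; linarith
  · rintro ⟨h1, h2, h3⟩
    have h4 : |z.re - c| ≤ r := by
      rw [abs_le] at ha hb ⊢
      constructor <;> linarith
    have hw : 2 * (c : ℂ) - z ∈ C := by
      refine ⟨by rw [him, h1.1, neg_zero], ?_⟩
      rw [hre]
      exact (h _ h1.2 (by linarith)).2
    have h5 : a ≤ (2 * (c : ℂ) - z).re := by rw [hre]; linarith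
    have h6 : (2 * (c : ℂ) - z).re ≤ b := by rw [hre]; linarith
    refine ⟨2 * c - z, ⟨hw, h5, h6⟩, ?_⟩
    rw [twist_of_le hr (hnorm _ hw h5 h6)]; ring

theorem image_A1 : (A1 : ℂ ≃ₜ ℂ) '' piece (2 / 9) (7 / 27) = piece (8 / 27) (1 / 3) := by
  refine (twist_image (a := 2 / 9) (b := 7 / 27) (by norm_num) cond1
    (by rw [abs_le]; constructor <;> norm_num)
    (by rw [abs_le]; constructor <;> norm_num)).trans ?_
  congr 1 <;> norm_num

theorem image_A2 : (A2 : ℂ ≃ₜ ℂ) '' piece (2 / 9) (19 / 81) = piece (20 / 81) (7 / 27) := by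
  refine (twist_image (a := 2 / 9) (b := 19 / 81) (by norm_num) cond2
    (by rw [abs_le]; constructor <;> norm_num)
    (by rw [abs_le]; constructor <;> norm_num)).trans ?_
  congr 1 <;> norm_num

theorem hmap_image {f : ℝ ≃o ℝ} (h : hmap f ∈ G0) (a b : ℝ) :
    hmap f '' piece a b = piece (f a) (f b) := by
  ext z
  constructor
  · rintro ⟨w, ⟨h1, h2, h3⟩, rfl⟩
    exact ⟨(h.1 w).1 h1, f.monotone h2, f.monotone h3⟩
  · rintro ⟨h1, h2, h3⟩
    refine ⟨(hmap f).symm z, ⟨?_, ?_, ?_⟩, Homeomorph.apply_symm_apply _ _⟩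
    · rw [h.1, Homeomorph.apply_symm_apply]; exact h1
    · exact f.le_symm_apply.2 h2
    · exact f.symm_apply_le.2 h3

theorem image_A3 : (A3 : ℂ ≃ₜ ℂ) '' piece (2 / 9) (19 / 81) = piece (2 / 9) (7 / 27) := by
  have := hmap_image A3.2 (2 / 9) (19 / 81)
  have e1 : sigma (2 / 9) = 2 / 9 := by
    rw [sigma_apply, tau_of_nonpos (by norm_num)]; norm_num
  have e2 : sigma (19 / 81) = 7 / 27 := by
    rw [sigma_apply, tau_apply, tauFun]; norm_num
  rw [e1, e2] at this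
  exact this

theorem image_full (f : G0) (hf : f = A1 ∨ f = A2 ∨ f = A3) :
    (f : ℂ ≃ₜ ℂ) '' piece (2 / 9) (1 / 3) = piece (2 / 9) (1 / 3) := by
  rcases hf with rfl | rfl | rfl
  · refine (twist_image (a := 2 / 9) (b := 1 / 3) (by norm_num) cond1
      (by rw [abs_le]; constructor <;> norm_num)
      (by rw [abs_le]; constructor <;> norm_num)).trans ?_
    congr 1 <;> norm_num
  · -- the second half twist preserves the left half and fixes the right half
    have h1 : (A2 : ℂ ≃ₜ ℂ) '' piece (2 / 9) (7 / 27) = piece (2 / 9) (7 / 27) := by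
      refine (twist_image (a := 2 / 9) (b := 7 / 27) (by norm_num) cond2
        (by rw [abs_le]; constructor <;> norm_num)
        (by rw [abs_le]; constructor <;> norm_num)).trans ?_
      congr 1 <;> norm_num
    have h2 : (A2 : ℂ ≃ₜ ℂ) '' piece (8 / 27) (1 / 3) = piece (8 / 27) (1 / 3) := by
      have h3 : ∀ z ∈ piece (8 / 27) (1 / 3), (A2 : ℂ ≃ₜ ℂ) z = z := by
        rintro z ⟨h4, h5, h6⟩
        apply twist_of_ge (by norm_num)
        rw [norm_sub_real h4]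
        have := le_abs_self (z.re - 13 / 54)
        linarith
      ext z
      constructor
      · rintro ⟨w, hw, rfl⟩; rw [h3 w hw]; exact hw
      · intro hz; exact ⟨z, hz, h3 z hz⟩
    rw [piece_split, Set.image_union, h1, h2]
  · have := hmap_image A3.2 (2 / 9) (1 / 3)
    have e1 : sigma (2 / 9) = 2 / 9 := by
      rw [sigma_apply, tau_of_nonpos (by norm_num)]; norm_num
    have e2 : sigma (1 / 3) = 1 / 3 := by
      rw [sigma_apply, tau_of_one_le (by norm_num)]; norm_num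
    rw [e1, e2] at this
    exact this

theorem E0_piece {f : G0} (hf : f ∈ E0) :
    (f : ℂ ≃ₜ ℂ) '' piece (2 / 9) (1 / 3) = piece (2 / 9) (1 / 3) := by
  unfold E0 at hf
  induction hf using Subgroup.closure_induction with
  | mem x hx =>
    simp only [Set.mem_insert_iff, Set.mem_singleton_iff] at hx
    exact image_full x hx
  | one => exact Set.image_id _
  | mul x y _ _ hx hy =>
    have e : ((x * y : G0) : ℂ ≃ₜ ℂ) '' piece (2 / 9) (1 / 3) =
        (x : ℂ ≃ₜ ℂ) '' ((y : ℂ ≃ₜ ℂ) '' piece (2 / 9) (1 / 3)) := by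
      rw [← Set.image_comp]; rfl
    rw [e, hy, hx]
  | inv x _ hx =>
    have e : ((x⁻¹ : G0) : ℂ ≃ₜ ℂ) '' ((x : ℂ ≃ₜ ℂ) '' piece (2 / 9) (1 / 3)) =
        piece (2 / 9) (1 / 3) := by
      rw [← Set.image_comp]
      convert Set.image_id _
      funext z
      exact (x : ℂ ≃ₜ ℂ).symm_apply_apply z
    rwa [hx] at e

/-- The base point. -/
noncomputable def x0 : ℂ := ((2 / 9 : ℝ) : ℂ)

theorem x0_mem : x0 ∈ piece (2 / 9) (1 / 3) := by
  refine ⟨⟨Complex.ofReal_im _, ?_⟩, ?_, ?_⟩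
  · show x0.re ∈ cantorSet
    unfold x0
    rw [Complex.ofReal_re]
    apply (mem_of_nine _).1
    have : (9 * (2 / 9 : ℝ) - 2) = 0 := by norm_num
    rw [this]; exact zero_mem_cantorSet
  · unfold x0; rw [Complex.ofReal_re]
  · unfold x0; rw [Complex.ofReal_re]; norm_num

theorem H_not_amenable : ¬ IsAmenable H := by
  intro hH
  classical
  let L : Subgroup H := (E0.map pi).subgroupOf H
  have hL : ∀ l : L, ∃ f ∈ E0, pi f = ((l : H) : Map S) := by
    intro l
    obtain ⟨f, hf, hfl⟩ := Subgroup.mem_subgroupOf.1 l.2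
    exact ⟨f, hf, hfl⟩
  choose F hF1 hF2 using hL
  let e : L → ℂ := fun l => (F l : ℂ ≃ₜ ℂ) x0
  let P : Set (Equiv.Perm ℂ) := {(A1 : ℂ ≃ₜ ℂ).toEquiv, (A2 : ℂ ≃ₜ ℂ).toEquiv,
    (A3 : ℂ ≃ₜ ℂ).toEquiv}
  have hA : ∀ f : G0, f ∈ E0 → ∃ l : L, ∀ l' : L, e (l * l') = (f : ℂ ≃ₜ ℂ) (e l') := by
    intro f hf
    have hle : E0 ≤ E := Subgroup.closure_mono (by
      intro x hx
      simp only [Set.mem_insert_iff, Set.mem_singleton_iff] at hx ⊢
      tauto)
    let l : L := ⟨⟨pi f, ⟨f, hle hf, rfl⟩⟩, Subgroup.mem_subgroupOf.2 ⟨f, hf, rfl⟩⟩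
    refine ⟨l, fun l' => ?_⟩
    show (F (l * l') : ℂ ≃ₜ ℂ) x0 = ((f * F l' : G0) : ℂ ≃ₜ ℂ) x0
    refine eq_of_pi_eq ?_ x0_mem.1
    rw [hF2, map_mul, hF2]
    rfl
  have hmemE : ∀ f : G0, f ∈ ({A1, A2, A3} : Set G0) → f ∈ E0 :=
    fun f hf => Subgroup.subset_closure hf
  obtain ⟨μ, -, hμ1, hμ2, hμ3⟩ := hH.mean L e P (by
    rintro σ hσ
    simp only [P, Set.mem_insert_iff, Set.mem_singleton_iff] at hσ
    rcases hσ with rfl | rfl | rfl
    · exact hA A1 (hmemE _ (by simp))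
    · exact hA A2 (hmemE _ (by simp))
    · exact hA A3 (hmemE _ (by simp)))
  have h1 : μ (piece (2 / 9) (1 / 3)) = 1 := by
    apply hμ1
    rintro z ⟨l, rfl⟩
    rw [← E0_piece (hF1 l)]
    exact ⟨x0, x0_mem, rfl⟩
  have hinv : ∀ f : G0, f ∈ ({A1, A2, A3} : Set G0) → ∀ A, μ ((f : ℂ ≃ₜ ℂ) '' A) = μ A := by
    intro f hf A
    apply hμ3 ((f : ℂ ≃ₜ ℂ).toEquiv)
    simp only [Set.mem_insert_iff, Set.mem_singleton_iff] at hf
    simp only [P, Set.mem_insert_iff, Set.mem_singleton_iff]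
    rcases hf with rfl | rfl | rfl <;> simp
  have h2 := hinv A1 (by simp) (piece (2 / 9) (7 / 27))
  have h3 := hinv A2 (by simp) (piece (2 / 9) (19 / 81))
  have h4 := hinv A3 (by simp) (piece (2 / 9) (19 / 81))
  rw [image_A1] at h2
  rw [image_A2] at h3
  rw [image_A3] at h4
  rw [piece_split, hμ2 _ _ (piece_disj (by norm_num)), h2] at h1
  rw [piece_split', hμ2 _ _ (piece_disj (by norm_num)), h3] at h1 h4
  linarith

end Pool.Agent.Q192.QM
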