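import Pool.Agent.Q192.QM.Cantor

/-! Homeomorphisms of the plane: products and half twists. -/

set_option autoImplicit false

open Complex

namespace Pool.Agent.Q192.QM

/-- The homeomorphism `(x, y) ↦ (f x, y)` of the plane. -/
noncomputable def hmap (f : ℝ ≃o ℝ) : ℂ ≃ₜ ℂ where
  toFun z := ⟨f z.re, z.im⟩
  invFun z := ⟨f.symm z.re, z.im⟩
  left_inv z := by apply Complex.ext <;> simp
  right_inv z := by apply Complex.ext <;> simp
  continuous_toFun := by
    have h : Continuous fun z : ℂ => ((f z.re : ℝ) : ℂ) + (z.im : ℂ) * I :=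
      ((continuous_ofReal.comp (f.continuous.comp continuous_re)).add
        ((continuous_ofReal.comp continuous_im).mul continuous_const))
    convert h using 2 with z
    apply Complex.ext <;> simp
  continuous_invFun := by
    have h : Continuous fun z : ℂ => ((f.symm z.re : ℝ) : ℂ) + (z.im : ℂ) * I :=
      ((continuous_ofReal.comp (f.symm.continuous.comp continuous_re)).add
        ((continuous_ofReal.comp continuous_im).mul continuous_const))
    convert h using 2 with z
    apply Complex.ext <;> simp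

@[simp] theorem hmap_re (f : ℝ ≃o ℝ) (z : ℂ) : (hmap f z).re = f z.re := rfl
@[simp] theorem hmap_im (f : ℝ ≃o ℝ) (z : ℂ) : (hmap f z).im = z.im := rfl

/-- The rotation angle at (relative) distance `s` from the centre: `π` for `s ≤ 1`, `0` for
`2 ≤ s`, and linear in between. -/
noncomputable def ang (s : ℝ) : ℝ := Real.pi * max 0 (min 1 (2 - s))

theorem continuous_ang : Continuous ang := by unfold ang; fun_prop

theorem ang_of_le {s : ℝ} (h : s ≤ 1) : ang s = Real.pi := by
  unfold ang; rw [min_eq_left (by linarith), max_eq_right (by norm_num), mul_one]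

theorem ang_of_ge {s : ℝ} (h : 2 ≤ s) : ang s = 0 := by
  unfold ang; rw [max_eq_left, mul_zero]
  exact (min_le_right _ _).trans (by linarith)

/-- The rotation of the circle of radius `s` about `c` by `θ (s / r)`. -/
noncomputable def rot (c : ℂ) (r : ℝ) (θ : ℝ → ℝ) (z : ℂ) : ℂ :=
  c + (z - c) * Complex.exp (θ (‖z - c‖ / r) * I)

theorem rot_sub (c : ℂ) (r : ℝ) (θ : ℝ → ℝ) (z : ℂ) :
    rot c r θ z - c = (z - c) * Complex.exp (θ (‖z - c‖ / r) * I) := by
  unfold rot; ring

theorem norm_rot_sub (c : ℂ) (r : ℝ) (θ : ℝ → ℝ) (z : ℂ) : ‖rot c r θ z - c‖ = ‖z - c‖ := by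
  rw [rot_sub, norm_mul, Complex.norm_exp_ofReal_mul_I, mul_one]

theorem rot_rot (c : ℂ) (r : ℝ) (θ θ' : ℝ → ℝ) (h : ∀ s, θ s + θ' s = 0) (z : ℂ) :
    rot c r θ (rot c r θ' z) = z := by
  have h1 : rot c r θ (rot c r θ' z) = c + (rot c r θ' z - c) *
      Complex.exp (θ (‖rot c r θ' z - c‖ / r) * I) := rfl
  rw [h1, norm_rot_sub, rot_sub, mul_assoc, ← Complex.exp_add]
  have h2 : (θ' (‖z - c‖ / r) : ℂ) * I + (θ (‖z - c‖ / r) : ℂ) * I = 0 := by
    rw [← add_mul, ← Complex.ofReal_add, add_comm, h]; simp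
  rw [h2, Complex.exp_zero, mul_one]; ring

theorem continuous_rot (c : ℂ) (r : ℝ) (θ : ℝ → ℝ) (hθ : Continuous θ) :
    Continuous (rot c r θ) := by
  unfold rot
  have : Continuous fun z : ℂ => θ (‖z - c‖ / r) := hθ.comp (by fun_prop)
  fun_prop

/-- The half twist about `c`: the rotation by `π` of the disc of radius `r` about `c`, damped to
the identity in the annulus between the radii `r` and `2 r`. -/
noncomputable def twist (c : ℂ) (r : ℝ) : ℂ ≃ₜ ℂ where
  toFun := rot c r ang
  invFun := rot c r fun s => -ang s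
  left_inv := rot_rot c r _ _ (fun s => by ring)
  right_inv := rot_rot c r _ _ (fun s => by ring)
  continuous_toFun := continuous_rot c r _ continuous_ang
  continuous_invFun := continuous_rot c r _ continuous_ang.neg

theorem twist_apply (c : ℂ) (r : ℝ) (z : ℂ) : twist c r z = rot c r ang z := rfl

theorem twist_of_le {c : ℂ} {r : ℝ} (hr : 0 < r) {z : ℂ} (hz : ‖z - c‖ ≤ r) :
    twist c r z = 2 * c - z := by
  rw [twist_apply, rot, ang_of_le (by rw [div_le_one hr]; exact hz), Complex.exp_pi_mul_I]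
  ring

theorem twist_of_ge {c : ℂ} {r : ℝ} (hr : 0 < r) {z : ℂ} (hz : 2 * r ≤ ‖z - c‖) :
    twist c r z = z := by
  rw [twist_apply, rot, ang_of_ge (by rw [le_div_iff₀ hr]; exact hz)]
  simp

end Pool.Agent.Q192.QM
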