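import Pool.Agent.Q192.QM.Plane
import Pool.Agent.H659R3.BigMCG.Defs

/-! The plane minus a Cantor set as an oriented surface, and the restriction of homeomorphisms of
the plane. -/

set_option autoImplicit false

open Complex Topology unitInterval
open Pool.Agent.H659R3.BigMCG

namespace Pool.Agent.Q192.QM

/-- The ternary Cantor set on the real axis of the plane. -/
def C : Set ℂ := {z | z.im = 0 ∧ z.re ∈ cantorSet}

theorem isClosed_C : IsClosed C :=
  (isClosed_eq continuous_im continuous_const).inter (isClosed_cantorSet.preimage continuous_re)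

/-- The surface `S = ℂ ∖ C`. -/
abbrev S : Type := {z : ℂ // z ∉ C}

theorem isOpen_compl_C : IsOpen {z : ℂ | z ∉ C} := isClosed_C.isOpen_compl

theorem not_mem_C_of_im {z : ℂ} (h : z.im ≠ 0) : z ∉ C := fun h' => h h'.1

theorem not_mem_C_of_re {z : ℂ} (h : z.re < 0) : z ∉ C := fun h' => by
  have := (K_bounds h'.2).1; linarith

instance : Nonempty S := ⟨⟨-1, not_mem_C_of_re (by simp)⟩⟩

theorem isOpenEmbedding_val : IsOpenEmbedding (Subtype.val : S → ℂ) :=
  isOpen_compl_C.isOpenEmbedding_subtypeVal

/-- The inclusion of `S` in the plane, as a chart. -/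
noncomputable def incl : OpenPartialHomeomorph S ℂ :=
  isOpenEmbedding_val.toOpenPartialHomeomorph _

theorem incl_apply (x : S) : incl x = x := rfl

theorem incl_source : incl.source = Set.univ := rfl

theorem incl_symm {z : ℂ} (hz : z ∉ C) : incl.symm z = ⟨z, hz⟩ := by
  have := incl.left_inv (x := (⟨z, hz⟩ : S)) (by rw [incl_source]; trivial)
  exact this

theorem joined_neg_one {z : ℂ} (hz : z ∉ C) : JoinedIn {z : ℂ | z ∉ C} z (-1) := by
  have key : ∀ ε : ℝ, ε = 1 ∨ ε = -1 → 0 ≤ ε * z.im → JoinedIn {z : ℂ | z ∉ C} z (-1) := by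
    intro ε hε him
    have hε0 : ε * ε = 1 := by rcases hε with h | h <;> rw [h] <;> norm_num
    have h1 : JoinedIn {z : ℂ | z ∉ C} z (z + ε * Complex.I) := by
      apply JoinedIn.of_segment_subset
      rintro w ⟨a, b, ha, hb, hab, rfl⟩
      have e1 : (a • z + b • (z + ε * Complex.I)).im = z.im + b * ε := by
        simp
        linear_combination z.im * hab
      rcases eq_or_lt_of_le hb with hb0 | hb0
      · have ha1 : a = 1 := by linarith
        rw [← hb0, ha1]
        simpa using hz
      · apply not_mem_C_of_im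
        rw [e1]
        intro h0
        have : ε * z.im + b * (ε * ε) = 0 := by linear_combination ε * h0
        rw [hε0] at this
        linarith
    have h2 : JoinedIn {z : ℂ | z ∉ C} (z + ε * Complex.I) (-1 + ε * Complex.I) := by
      apply JoinedIn.of_segment_subset
      rintro w ⟨a, b, ha, hb, hab, rfl⟩
      apply not_mem_C_of_im
      have e1 : (a • (z + ε * Complex.I) + b • (-1 + ε * Complex.I)).im = a * z.im + ε := by
        simp
        linear_combination ε * hab
      rw [e1]
      intro h0
      have : a * (ε * z.im) + ε * ε = 0 := by linear_combination ε * h0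
      rw [hε0] at this
      have := mul_nonneg ha him
      linarith
    have h3 : JoinedIn {z : ℂ | z ∉ C} (-1 + ε * Complex.I) (-1) := by
      apply JoinedIn.of_segment_subset
      rintro w ⟨a, b, ha, hb, hab, rfl⟩
      apply not_mem_C_of_re
      have e1 : (a • (-1 + ε * Complex.I) + b • (-1 : ℂ)).re = -1 := by
        simp
        linarith
      rw [e1]; norm_num
    exact (h1.trans h2).trans h3
  rcases le_total 0 z.im with h | h
  · exact key 1 (Or.inl rfl) (by linarith)
  · exact key (-1) (Or.inr rfl) (by linarith)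

theorem orientPresAt_id (z : ℂ) : OrientPresAt (fun w => w) z := by
  have := orientPresAt_add_const 0 z
  simpa using this

/-- `ℂ ∖ C` is an oriented surface: a connected open subset of the plane, with the inclusion as
its only chart. -/
noncomputable instance instSurf : OrientedSurface S where
  t2 := inferInstance
  secondCountable := inferInstance
  connected := by
    have h : IsPathConnected {z : ℂ | z ∉ C} :=
      ⟨-1, not_mem_C_of_re (by simp), fun {z} hz => (joined_neg_one hz).symm⟩
    exact isConnected_iff_connectedSpace.1 h.isConnected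
  charts := {incl}
  cover x := ⟨incl, rfl, trivial⟩
  oriented := by
    rintro φ rfl ψ rfl x - -
    refine (orientPresAt_id (incl x)).congr ?_
    filter_upwards [isOpen_compl_C.mem_nhds x.2] with w hw
    show incl (incl.symm w) = w
    rw [incl_symm hw, incl_apply]

/-! The orientation of homeomorphisms of the plane. -/

/-- A continuous injective map of the plane which preserves the orientation at one point
preserves it everywhere. -/
theorem orientPresAt_of_one {f : ℂ → ℂ} (hf : Continuous f) (hi : Function.Injective f) {z₀ : ℂ}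
    (h : OrientPresAt f z₀) (z : ℂ) : OrientPresAt f z := by
  obtain ⟨r₀, hr₀, h⟩ := h
  refine ⟨1, one_pos, fun r hr _ => ?_⟩
  have h0 := h (r₀ / 2) (by positivity) (by linarith)
  let ρ : I → ℝ := fun s => (1 - (s : ℝ)) * (r₀ / 2) + s * r
  have hρ : ∀ s, 0 < ρ s := by
    intro s
    rcases eq_or_lt_of_le s.2.1 with h1 | h1
    · simp only [ρ, ← h1]; norm_num; exact hr₀
    · have h2 : 0 ≤ (1 - (s : ℝ)) := by linarith [s.2.2]
      have : 0 < (s : ℝ) * r := mul_pos h1 hr
      have : 0 ≤ (1 - (s : ℝ)) * (r₀ / 2) := by positivity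
      simp only [ρ]; linarith
  let K : I × ℝ → ℂ := fun p =>
    f (((1 - (p.1 : ℝ) : ℝ) : ℂ) * z₀ + ((p.1 : ℝ) : ℂ) * z +
      (ρ p.1 : ℂ) * Complex.exp (2 * Real.pi * p.2 * Complex.I)) -
      f (((1 - (p.1 : ℝ) : ℝ) : ℂ) * z₀ + ((p.1 : ℝ) : ℂ) * z)
  have hK : Continuous K := by
    have hρc : Continuous ρ := by
      show Continuous fun s : I => (1 - (s : ℝ)) * (r₀ / 2) + s * r
      fun_prop
    have : Continuous fun p : I × ℝ => (ρ p.1 : ℂ) :=
      continuous_ofReal.comp (hρc.comp continuous_fst)
    refine Continuous.sub (hf.comp ?_) (hf.comp ?_)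
    · fun_prop
    · fun_prop
  have hK0 : ∀ p, K p ≠ 0 := by
    intro p hp
    have h1 := hi (sub_eq_zero.1 hp)
    have h2 : (ρ p.1 : ℂ) * Complex.exp (2 * Real.pi * p.2 * Complex.I) = 0 := by
      linear_combination h1
    rcases mul_eq_zero.1 h2 with h3 | h3
    · exact (hρ p.1).ne' (by exact_mod_cast h3)
    · exact Complex.exp_ne_zero _ h3
  have hKp : ∀ s t, K (s, t + 1) = K (s, t) := by
    intro s t
    have h1 : Complex.exp (2 * Real.pi * ((t + 1 : ℝ) : ℂ) * Complex.I) =
        Complex.exp (2 * Real.pi * t * Complex.I) := by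
      have : (2 * Real.pi * ((t + 1 : ℝ) : ℂ) * Complex.I) =
          2 * Real.pi * t * Complex.I + 2 * Real.pi * Complex.I := by push_cast; ring
      rw [this, Complex.exp_add, Complex.exp_two_pi_mul_I, mul_one]
    simp only [K, h1]
  have hstart : HasWinding (fun t => K (0, t)) 1 := by
    convert h0 using 2 with t
    simp [K, ρ]
  have hend := hstart.homotopy hK hK0 hKp 1
  convert hend using 2 with t
  simp [K, ρ]

/-- The group of orientation-preserving homeomorphisms of the plane which preserve `C`. -/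
def G0 : Subgroup (ℂ ≃ₜ ℂ) where
  carrier := {f | (∀ z, z ∈ C ↔ f z ∈ C) ∧ (∀ z, OrientPresAt f z) ∧
    ∀ z, OrientPresAt (f⁻¹ : ℂ ≃ₜ ℂ) z}
  one_mem' := ⟨fun z => Iff.rfl, orientPresAt_id, orientPresAt_id⟩
  mul_mem' := by
    rintro a b ⟨ha, ha', ha''⟩ ⟨hb, hb', hb''⟩
    refine ⟨fun z => (hb z).trans (ha _), fun z => ?_, fun z => ?_⟩
    · exact (hb' z).comp (ha' _) b.continuous.continuousAt one_pos a.continuous.continuousOn
        a.injective.injOn
    · rw [mul_inv_rev]
      exact (ha'' z).comp (hb'' _) (a⁻¹ : ℂ ≃ₜ ℂ).continuous.continuousAt one_pos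
        (b⁻¹ : ℂ ≃ₜ ℂ).continuous.continuousOn (b⁻¹ : ℂ ≃ₜ ℂ).injective.injOn
  inv_mem' := by
    rintro a ⟨ha, ha', ha''⟩
    refine ⟨fun z => ?_, ha'', by rw [inv_inv]; exact ha'⟩
    have := ha (a⁻¹ z)
    have e : a (a⁻¹ z) = z := a.apply_symm_apply z
    rw [e] at this
    exact this.symm

/-- A homeomorphism of the plane which preserves `C` and is the identity near some point. -/
theorem mem_G0 {f : ℂ ≃ₜ ℂ} (hC : ∀ z, z ∈ C ↔ f z ∈ C) {z₀ : ℂ}
    (h : ∀ᶠ w in 𝓝 z₀, f w = w) : f ∈ G0 := by
  have h' : ∀ᶠ w in 𝓝 z₀, (f⁻¹ : ℂ ≃ₜ ℂ) w = w := by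
    filter_upwards [h] with w hw
    show f.symm w = w
    rw [Homeomorph.symm_apply_eq, hw]
  exact ⟨hC, orientPresAt_of_one f.continuous f.injective ((orientPresAt_id z₀).congr h),
    orientPresAt_of_one (f⁻¹ : ℂ ≃ₜ ℂ).continuous (f⁻¹ : ℂ ≃ₜ ℂ).injective
      ((orientPresAt_id z₀).congr h')⟩

/-- The restriction of a homeomorphism of the plane preserving `C`. -/
noncomputable def restr (f : G0) : S ≃ₜ S :=
  (f : ℂ ≃ₜ ℂ).subtype fun z => not_congr (f.2.1 z)

@[simp] theorem restr_apply (f : G0) (x : S) : ((restr f x : S) : ℂ) = (f : ℂ ≃ₜ ℂ) x := rfl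

theorem restr_mul (f g : G0) : restr (f * g) = restr f * restr g := by
  ext x; rfl

theorem restr_one : restr 1 = 1 := by ext x; rfl

theorem restr_pres (f : G0) : PreservesOrientation (restr f) := by
  rintro φ rfl ψ rfl x - -
  refine (f.2.2.1 (incl x)).congr ?_
  filter_upwards [isOpen_compl_C.mem_nhds x.2] with w hw
  show incl (restr f (incl.symm w)) = (f : ℂ ≃ₜ ℂ) w
  rw [incl_symm hw, incl_apply]; rfl

/-- The restriction homomorphism. -/
noncomputable def restrHom : G0 →* HomeoPlus S where
  toFun f := ⟨restr f, restr_pres f, by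
    have : (restr f)⁻¹ = restr f⁻¹ := by
      rw [inv_eq_iff_mul_eq_one, ← restr_mul, mul_inv_cancel, restr_one]
    rw [this]; exact restr_pres _⟩
  map_one' := Subtype.ext restr_one
  map_mul' f g := Subtype.ext (restr_mul f g)

/-- The mapping class of (the restriction of) a homeomorphism of the plane. -/
noncomputable def pi : G0 →* Map S := toMap.comp restrHom

end Pool.Agent.Q192.QM
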